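import Pool.Agent.RS.StmtsT

set_option autoImplicit false

/-!
# Squad RS, row ABS: the abstract termination theorem
-/

namespace Pool.Agent.RS.H39

open MvPolynomial

/-- a derivation at the value of a polynomial with coefficients killed by it -/
lemma deriv_eval {k B : Type} [Field k] [CommRing B] [Algebra k B] (d : Derivation k B B)
    (g : Polynomial B) (x : B) (hg : ∀ n, d (g.coeff n) = 0) :
    d (g.eval x) = g.derivative.eval x * d x := by
  rw [Polynomial.eval_eq_sum_range, map_sum, Polynomial.derivative_eval, Polynomial.sum_over_range,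
    Finset.sum_mul]
  · refine Finset.sum_congr rfl fun n _ => ?_
    rw [Derivation.leibniz, hg, smul_zero, add_zero, Derivation.leibniz_pow, smul_eq_mul,
      smul_eq_mul, nsmul_eq_mul]
    ring
  · intro n
    simp

/-- ABS -/
theorem abs (ext : ExtStmt) (prm : PrmStmt) (der : DerStmt) (nmd : NmdStmt) (ndr : NdrStmt)
    (niv : NivStmt) (ndc : NdcStmt) (npw : NpwStmt) (eiv : EivStmt) (alg : AlgStmt)
    (eqp : EqpStmt) (mnp : MnpStmt) (jac : JacStmt) : AbsStmt := by
  intro k Y _ _ r D P x q lc e ρ α β a0 b0 s hT hA hq hDP hDx hb0 hb0s hno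
  have hinj : Function.Injective (algebraMap (MvPolynomial Y k)
      (FractionRing (MvPolynomial Y k))) := IsFractionRing.injective _ _
  set ι := algebraMap (MvPolynomial Y k) (FractionRing (MvPolynomial Y k)) with hι
  have hιb : ι b0 ≠ 0 := fun h => hb0 (hinj (by rw [h, map_zero]))
  have hqP : ∀ l < r, q l ∈ P l := fun l hl => (hA.2 l hl).1
  have hPle : ∀ l < r, P (l + 1) ≤ P l := fun l hl => (hT.2 l hl).1
  have hcond : ∀ l < r, q l ∈ P l ∧ q l ≠ 0 ∧ P (l + 1) ≤ P l :=
    fun l hl => ⟨hqP l hl, hq l hl, hPle l hl⟩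
  obtain ⟨hN0, hNadd, hNmul, -⟩ := nmd (MvPolynomial Y k) (FractionRing (MvPolynomial Y k)) hinj
    P q r hcond
  -- the ideal `I`
  let I : Ideal (MvPolynomial Y k) :=
    { carrier := {f | InN (K := FractionRing (MvPolynomial Y k)) P q r (ι f / ι b0)}
      zero_mem' := by
        change InN (K := FractionRing (MvPolynomial Y k)) P q r (ι 0 / ι b0)
        rw [map_zero, zero_div]
        exact hN0
      add_mem' := by
        intro f g hf hg
        change InN (K := FractionRing (MvPolynomial Y k)) P q r (ι (f + g) / ι b0)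
        rw [map_add, add_div]
        exact hNadd _ _ hf hg
      smul_mem' := by
        intro c f hf
        change InN (K := FractionRing (MvPolynomial Y k)) P q r (ι (c * f) / ι b0)
        rw [map_mul, mul_div_assoc]
        exact hNmul _ _ hf }
  have hI : ∀ f, f ∈ I ↔ InN (K := FractionRing (MvPolynomial Y k)) P q r (ι f / ι b0) :=
    fun f => Iff.rfl
  have h1 : (1 : MvPolynomial Y k) ∉ I := by
    intro h
    apply hno
    have h2 := hNmul a0 _ ((hI 1).1 h)
    rw [← mul_div_assoc, ← map_mul, mul_one] at h2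
    exact h2
  have hIP : ∀ f ∈ P r, f ∈ I → f = 0 := by
    intro f hf hfI
    by_contra hf0
    apply h1
    have hιf : ι f ≠ 0 := fun h => hf0 (hinj (by rw [h, map_zero]))
    have h2 := niv (MvPolynomial Y k) (FractionRing (MvPolynomial Y k)) hinj P q r hPle f hf hf0
      _ ((hI f).1 hfI)
    rw [hI, map_one]
    have h3 : (1 : FractionRing (MvPolynomial Y k)) / ι b0 = ι f / ι b0 / ι f := by
      field_simp
    rw [h3]
    exact h2
  -- stability under derivations
  have hst : ∀ y, y ∉ (s : Set Y) → ∀ f ∈ I, pderiv y f ∈ I := by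
    intro y hy f hf
    obtain ⟨D', hD1, hD2⟩ := der k (MvPolynomial Y k) (pderiv y)
    have h2 := ndr k (MvPolynomial Y k) (pderiv y) D' hD1 hD2 P q r hcond _ ((hI f).1 hf)
    have hb' : pderiv y b0 = 0 := by
      refine pderiv_eq_zero_of_notMem_vars fun h => ?_
      exact hy ((mem_supported.1 hb0s) h)
    have h3 : D' (ι f) = ι b0 * D' (ι f / ι b0) := by
      have h4 := hD2 (ι b0) (ι f / ι b0)
      rw [mul_div_cancel₀ _ hιb] at h4
      rw [h4, hD1 b0, hb', map_zero, mul_zero, add_zero]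
    rw [hI]
    have h5 : ι (pderiv y f) / ι b0 = D' (ι f / ι b0) := by
      rw [← hD1 f, h3, mul_div_cancel_left₀ _ hιb]
    rw [h5]
    exact h2
  have hgen := ext k Y (s : Set Y) I hst
  -- powers of `q l` are in `I`
  have hpow : ∀ l < r, ∃ n : ℕ, q l ^ n ∈ I := by
    intro l hl
    obtain ⟨w, n, a, f, hw, hf, hf0, h2⟩ := ndc (MvPolynomial Y k)
      (FractionRing (MvPolynomial Y k)) hinj P x q r hT (fun l hl => ⟨hqP l hl, hq l hl⟩) b0 hb0
    refine ⟨n, ?_⟩
    rw [hI]
    have h3 := npw (MvPolynomial Y k) (FractionRing (MvPolynomial Y k)) hinj P q r hcond l hl n a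
      f hf hf0
    have h4 : ι (q l ^ n) / ι b0 = ι (q l ^ n) * w + ι (q l) ^ n *
        (ι a / ι ((∏ i ∈ Finset.range r, q i) ^ n * f)) := by
      rw [div_eq_mul_one_div, h2, mul_add, map_pow]
    rw [h4]
    exact hNadd _ _ (hNmul _ _ hw) h3
  -- the prime ideal
  let S : Submonoid (MvPolynomial Y k) :=
    { carrier := {f | f ∈ P r ∧ f ≠ 0}
      one_mem' := ⟨(P r).one_mem, one_ne_zero⟩
      mul_mem' := fun {a b} ha hb => ⟨(P r).mul_mem ha.1 hb.1, mul_ne_zero ha.2 hb.2⟩ }
  have hdis : Disjoint (I : Set (MvPolynomial Y k)) S := by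
    rw [Set.disjoint_left]
    intro f hf hS
    exact hS.2 (hIP f hS.1 hf)
  obtain ⟨p, hp, hIp, hpS⟩ := Ideal.exists_le_prime_disjoint I S hdis
  have hpP : ∀ f ∈ P r, f ∈ p → f = 0 := by
    intro f hf hfp
    by_contra hf0
    exact Set.disjoint_left.1 hpS hfp ⟨hf, hf0⟩
  have hQ := prm k Y (s : Set Y) p hp
  set Qi : Ideal (MvPolynomial Y k) :=
    Ideal.span {g | g ∈ p ∧ g ∈ supported k (s : Set Y)} with hQi
  have hIQ : I ≤ Qi := by
    intro f hf
    refine Ideal.span_mono ?_ (hgen f hf)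
    rintro g ⟨hg, hg'⟩
    exact ⟨hIp hg, hg'⟩
  have hQp : Qi ≤ p := by
    rw [hQi, Ideal.span_le]
    rintro g ⟨hg, -⟩
    exact hg
  have hqQ : ∀ l < r, q l ∈ Qi := by
    intro l hl
    obtain ⟨n, hn⟩ := hpow l hl
    exact hQ.mem_of_pow_mem n (hIQ hn)
  have hqp : ∀ l < r, q l ∈ p := fun l hl => hQp (hqQ l hl)
  have hlc := (eiv (MvPolynomial Y k) P x r q lc e ρ α β hA p hp hqp hpP).2
  have hPQ : ∀ f ∈ P r, f ∈ Qi → f = 0 := fun f hf hfQ => hpP f hf (hQp hfQ)
  have halgQ := alg (MvPolynomial Y k) P x r q lc e ρ α β hT hA Qi hQ hqQ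
    (fun l hl h => hlc l hl (hQp h)) hPQ
  have hpQ : p = Qi := eqp (MvPolynomial Y k) (P r) Qi p hQ hQp halgQ hpP
  have hg : ∀ l : Fin r, ∃ g : Polynomial (MvPolynomial Y k), (∀ n, g.coeff n ∈ P r) ∧
      g.eval (x l) ∈ p ∧ g.derivative.eval (x l) ∉ p := by
    intro l
    refine mnp k (MvPolynomial Y k) (P r) p (x l) hp hpP ?_
    obtain ⟨g, hg0, hgc, hge⟩ := halgQ (x l)
    exact ⟨g, hg0, hgc, hQp hge⟩
  choose g hgc hge hgd using hg
  have hder : ∀ i i' : Fin r, D i' ((g i).eval (x i)) =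
      (g i).derivative.eval (x i) * (if (i' : ℕ) = i then 1 else 0) := by
    intro i i'
    rw [deriv_eval (D i') (g i) (x i) fun n => hDP i' i'.2 _ (hgc i n), hDx i' i'.2 i i.2]
  refine jac k Y s r (fun i => D i) p (fun i => (g i).eval (x i))
    (fun i => (g i).derivative.eval (x i)) hp ?_ hgd ?_ ?_
  · intro i
    rw [← hQi, ← hpQ]
    exact hge i
  · intro i
    change D i ((g i).eval (x i)) - _ ∈ p
    rw [hder i i, if_pos rfl, mul_one, sub_self]
    exact p.zero_mem
  · intro i i' h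
    change D i' ((g i).eval (x i)) ∈ p
    rw [hder i i', if_neg, mul_zero]
    · exact p.zero_mem
    · intro h2
      exact h (Fin.ext h2.symm)

end Pool.Agent.RS.H39
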