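import Pool.Agent.RS.StmtsT

set_option autoImplicit false

/-!
# Squad RS, row JAC
-/

namespace Pool.Agent.RS.H39

open MvPolynomial

/-- a derivation at a polynomial in the variables `s` -/
lemma deriv_supported {k Y : Type} [Field k] [DecidableEq Y] (s : Finset Y)
    (g : MvPolynomial Y k) (hg : g ∈ supported k (s : Set Y))
    (d : Derivation k (MvPolynomial Y k) (MvPolynomial Y k)) :
    d g = ∑ v ∈ s, pderiv v g * d (X v) := by
  unfold supported at hg
  induction hg using Algebra.adjoin_induction with
  | mem x hx =>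
    obtain ⟨v, hv, rfl⟩ := hx
    rw [Finset.sum_eq_single v]
    · rw [pderiv_X_self, one_mul]
    · intro w _ hw
      rw [pderiv_X_of_ne (Ne.symm hw), zero_mul]
    · intro h
      exact absurd hv h
  | algebraMap c =>
    rw [Derivation.map_algebraMap]
    refine (Finset.sum_eq_zero fun v _ => ?_).symm
    rw [Derivation.map_algebraMap, zero_mul]
  | add a b _ _ ha hb =>
    rw [map_add, ha, hb, ← Finset.sum_add_distrib]
    refine Finset.sum_congr rfl fun v _ => ?_
    rw [map_add, add_mul]
  | mul a b _ _ ha hb =>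
    rw [Derivation.leibniz, ha, hb, smul_eq_mul, smul_eq_mul, Finset.mul_sum, Finset.mul_sum,
      ← Finset.sum_add_distrib]
    refine Finset.sum_congr rfl fun v _ => ?_
    rw [Derivation.leibniz, smul_eq_mul, smul_eq_mul]
    ring

/-- JAC -/
theorem jac : JacStmt := by
  intro k Y _ s r D p y t hp hy ht h1 h2
  classical
  let Q := MvPolynomial Y k ⧸ p
  haveI : IsDomain Q := Ideal.Quotient.isDomain p
  let K := FractionRing Q
  let φ : MvPolynomial Y k →+* K := (algebraMap Q K).comp (Ideal.Quotient.mk p)
  have hφ : ∀ f, φ f = 0 ↔ f ∈ p := by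
    intro f
    rw [← Ideal.Quotient.eq_zero_iff_mem]
    exact map_eq_zero_iff (algebraMap Q K) (IsFractionRing.injective Q K)
  have hsp : ∀ f ∈ Ideal.span {g | g ∈ p ∧ g ∈ supported k (s : Set Y)},
      f ∈ p ∧ ∃ a : s → K, ∀ d : Derivation k (MvPolynomial Y k) (MvPolynomial Y k),
        φ (d f) = ∑ v : s, a v * φ (d (X (v : Y))) := by
    intro f hf
    induction hf using Submodule.span_induction with
    | mem g hg =>
      refine ⟨hg.1, fun v => φ (pderiv (v : Y) g), fun d => ?_⟩
      rw [deriv_supported s g hg.2 d, map_sum, ← Finset.sum_coe_sort s]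
      refine Finset.sum_congr rfl fun v _ => ?_
      rw [map_mul]
    | zero =>
      refine ⟨Submodule.zero_mem _, fun _ => 0, fun d => ?_⟩
      rw [map_zero, map_zero]
      simp
    | add a b _ _ ha hb =>
      obtain ⟨ha0, a', ha'⟩ := ha
      obtain ⟨hb0, b', hb'⟩ := hb
      refine ⟨p.add_mem ha0 hb0, fun v => a' v + b' v, fun d => ?_⟩
      rw [map_add, map_add, ha', hb', ← Finset.sum_add_distrib]
      refine Finset.sum_congr rfl fun v _ => ?_
      rw [add_mul]
    | smul c f _ hf =>
      obtain ⟨hf0, a', ha'⟩ := hf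
      refine ⟨p.mul_mem_left c hf0, fun v => φ c * a' v, fun d => ?_⟩
      rw [smul_eq_mul, Derivation.leibniz, map_add, smul_eq_mul, smul_eq_mul, map_mul, map_mul,
        (hφ f).2 hf0, zero_mul, add_zero, ha', Finset.mul_sum]
      refine Finset.sum_congr rfl fun v _ => ?_
      rw [mul_assoc]
  choose a ha using fun i => (hsp (y i) (hy i)).2
  let M : Matrix (Fin r) s K := Matrix.of fun i v => a i v
  let N : Matrix s (Fin r) K := Matrix.of fun v i => φ (D i (X (v : Y)))
  have hMN : M * N = Matrix.diagonal fun i => φ (t i) := by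
    ext i i'
    have e1 : (M * N) i i' = φ (D i' (y i)) := by
      rw [ha i (D i'), Matrix.mul_apply]
      rfl
    rw [e1]
    by_cases h : i = i'
    · subst h
      rw [Matrix.diagonal_apply_eq]
      have h3 := (hφ _).2 (h1 i)
      rwa [map_sub, sub_eq_zero] at h3
    · rw [Matrix.diagonal_apply_ne _ h]
      exact (hφ _).2 (h2 i i' h)
  have hU : IsUnit (Matrix.diagonal fun i => φ (t i)) := by
    rw [Matrix.isUnit_diagonal, Pi.isUnit_iff]
    intro i
    rw [isUnit_iff_ne_zero]
    exact fun h => ht i ((hφ _).1 h)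
  have h3 : (M * N).rank = r := by
    rw [hMN, Matrix.rank_of_isUnit _ hU, Fintype.card_fin]
  have h4 : (M * N).rank ≤ M.rank := Matrix.rank_mul_le_left M N
  have h5 : M.rank ≤ Fintype.card s := Matrix.rank_le_card_width M
  rw [Fintype.card_coe] at h5
  omega

end Pool.Agent.RS.H39
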