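import Pool.Agent.Helper80_RS.Stmts

/-!
# MP_ff6f12_co, module MIX: the mixed gadget
-/

open SimpleGraph

namespace Pool.Agent.RS80.H39

variable {V : Type}

/-- The inclusion of `B`. -/
def incl (B : SimpleGraph V) (Z : Set V) : B →g pend B Z := ⟨Sum.inl, fun h => h⟩

lemma pend_connected {B : SimpleGraph V} (Z : Set V) (hB : B.Connected) :
    (pend B Z).Connected := by
  have h1 : ∀ u v : V, (pend B Z).Reachable (Sum.inl u) (Sum.inl v) := fun u v =>
    (hB.preconnected u v).map (incl B Z)
  have h2 : ∀ x : V ⊕ Z, ∃ u : V, (pend B Z).Reachable x (Sum.inl u) := by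
    rintro (u | z)
    · exact ⟨u, Reachable.refl _⟩
    · refine ⟨z.1, Adj.reachable ?_⟩
      change z.1 = z.1
      rfl
  obtain ⟨v⟩ := hB.nonempty
  have hne : Nonempty (V ⊕ Z) := ⟨Sum.inl v⟩
  refine ⟨fun x y => ?_⟩
  obtain ⟨u, hu⟩ := h2 x
  obtain ⟨w, hw⟩ := h2 y
  exact hu.trans ((h1 u w).trans hw.symm)

lemma const_of_connected {W α : Type} {H : SimpleGraph W} (hH : H.Connected) (g : W → α)
    (hg : ∀ a b, H.Adj a b → g a = g b) (a b : W) : g a = g b := by
  obtain ⟨p⟩ := hH.preconnected a b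
  induction p with
  | nil => rfl
  | cons h _ ih => rw [hg _ _ h, ih]

/-- `q` disjoint copies. -/
def cp (q : ℕ) {X : Type} (K : SimpleGraph X) : SimpleGraph (Fin q × X) where
  Adj a b := a.1 = b.1 ∧ K.Adj a.2 b.2
  symm := ⟨fun _ _ h => ⟨h.1.symm, h.2.symm⟩⟩
  loopless := ⟨fun _ h => K.loopless.irrefl _ h.2⟩

lemma cp_free {W X : Type} {H : SimpleGraph W} (hH : H.Connected) (q : ℕ) {K : SimpleGraph X}
    (hK : H.Free K) : H.Free (cp q K) := by
  rintro ⟨f⟩
  apply hK
  refine ⟨⟨⟨fun w => (f w).2, fun {a b} h => (f.toHom.map_rel h).2⟩, ?_⟩⟩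
  intro a b hab
  apply f.injective'
  refine Prod.ext ?_ hab
  exact const_of_connected hH (fun w => (f w).1) (fun a b h => (f.toHom.map_rel h).1) a b

lemma free_mono {W X : Type} {H : SimpleGraph W} {K K' : SimpleGraph X} (h : K ≤ K')
    (hK : H.Free K') : H.Free K := by
  rintro ⟨f⟩
  exact hK ⟨⟨⟨f, fun {a b} hab => h (f.toHom.map_rel hab)⟩, f.injective'⟩⟩

lemma free_comap {W X Y : Type} {H : SimpleGraph W} {K : SimpleGraph X} (e : Y → X)
    (he : Function.Injective e) (hK : H.Free K) : H.Free (K.comap e) := by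
  rintro ⟨f⟩
  exact hK ⟨⟨⟨fun w => e (f w), fun {a b} hab => f.toHom.map_rel hab⟩,
    fun a b h => f.injective' (he h)⟩⟩

/-- The main step: if `r` has no neighbour in the second class, adding an edge of this class from
`r` to a vertex `y` of large degree creates no copy of `H`. -/
lemma free_sup_edge {W X : Type} [Finite W] {H : SimpleGraph W} {S : SimpleGraph X}
    (hS : H.Free S) {r y : X} (hr : ∀ x, ¬ S.Adj r x) (hne : r ≠ y)
    (hy : Nat.card W ≤ (S.neighborSet y).ncard) (hfin : (S.neighborSet y).Finite) :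
    H.Free (S ⊔ edge r y) := by
  classical
  rintro ⟨f⟩
  -- edges not at `r` are in `S`
  have hadj : ∀ a b, H.Adj a b → f a ≠ r → f b ≠ r → S.Adj (f a) (f b) := by
    intro a b hab ha hb
    rcases (f.toHom.map_rel hab : (S ⊔ edge r y).Adj (f a) (f b)) with h | h
    · exact h
    · rw [edge_adj] at h
      rcases h.1 with h1 | h1
      · exact absurd h1.1 ha
      · exact absurd h1.2 hb
  by_cases hex : ∃ v0, f v0 = r
  · obtain ⟨v0, hv0⟩ := hex
    have hnb : ∀ b, H.Adj v0 b → f b = y := by
      intro b hb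
      rcases (f.toHom.map_rel hb : (S ⊔ edge r y).Adj (f v0) (f b)) with h | h
      · have h' : S.Adj (f v0) (f b) := h
        rw [hv0] at h'
        exact absurd h' (hr _)
      · rw [edge_adj] at h
        rcases h.1 with h1 | h1
        · exact h1.2
        · exact absurd (hv0.symm.trans h1.1) hne
    by_cases hy' : ∃ v1, f v1 = y
    · obtain ⟨v1, hv1⟩ := hy'
      -- a neighbour `u` of `y` outside the copy
      obtain ⟨u, hu, hu'⟩ : ∃ u ∈ S.neighborSet y, u ∉ f '' {v | v ≠ v1} := by
        by_contra hcon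
        push Not at hcon
        have h1 : (S.neighborSet y).ncard ≤ (f '' {v | v ≠ v1}).ncard :=
          Set.ncard_le_ncard hcon (Set.toFinite _)
        have h2 : (f '' {v | v ≠ v1}).ncard ≤ ({v | v ≠ v1} : Set W).ncard :=
          Set.ncard_image_le (Set.toFinite _)
        have h3 : ({v | v ≠ v1} : Set W).ncard < Nat.card W := by
          have : ({v | v ≠ v1} : Set W) ⊂ Set.univ :=
            Set.ssubset_univ_iff.2 fun h => by
              have : v1 ∈ ({v | v ≠ v1} : Set W) := by rw [h]; trivial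
              exact this rfl
          have h4 := Set.ncard_lt_ncard this (Set.toFinite _)
          rwa [Set.ncard_univ] at h4
        omega
      have hu1 : u ≠ y := by
        rintro rfl
        exact S.loopless.irrefl _ hu
      have hu2 : ∀ v, f v ≠ u := by
        intro v hv
        by_cases h : v = v1
        · subst h; exact hu1 (hv.symm.trans hv1)
        · exact hu' ⟨v, h, hv⟩
      apply hS
      refine ⟨⟨⟨fun v => if v = v0 then u else f v, ?_⟩, ?_⟩⟩
      · intro a b hab
        by_cases ha : a = v0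
        · subst ha
          have hb : b ≠ a := fun h => by subst h; exact H.loopless.irrefl _ hab
          rw [if_pos rfl, if_neg hb, hnb b hab]
          exact S.symm.symm _ _ hu
        · by_cases hb : b = v0
          · subst hb
            rw [if_pos rfl, if_neg ha, hnb a hab.symm]
            exact hu
          · rw [if_neg ha, if_neg hb]
            exact hadj a b hab (fun h => ha (f.injective' (h.trans hv0.symm)))
              (fun h => hb (f.injective' (h.trans hv0.symm)))
      · intro a b hab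
        change (if a = v0 then u else f a) = (if b = v0 then u else f b) at hab
        by_cases ha : a = v0
        · by_cases hb : b = v0
          · rw [ha, hb]
          · rw [if_pos ha, if_neg hb] at hab
            exact absurd hab.symm (hu2 b)
        · by_cases hb : b = v0
          · rw [if_neg ha, if_pos hb] at hab
            exact absurd hab (hu2 a)
          · rw [if_neg ha, if_neg hb] at hab
            exact f.injective' hab
    · -- `v0` is isolated; move it to a neighbour of `y` or anything: use a vertex outside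
      apply hS
      have hiso : ∀ b, ¬ H.Adj v0 b := fun b hb => hy' ⟨b, hnb b hb⟩
      refine ⟨⟨⟨f, ?_⟩, f.injective'⟩⟩
      intro a b hab
      refine hadj a b hab (fun h => ?_) (fun h => ?_)
      · have : a = v0 := f.injective' (h.trans hv0.symm)
        subst this; exact hiso b hab
      · have : b = v0 := f.injective' (h.trans hv0.symm)
        subst this; exact hiso a hab.symm
  · push Not at hex
    apply hS
    exact ⟨⟨⟨f, fun {a b} hab => hadj a b hab (hex a) (hex b)⟩, f.injective'⟩⟩

lemma good_swap {W X : Type} {H : SimpleGraph W} {G R S : SimpleGraph X} (h : Good H G R S) :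
    Good H G S R := ⟨by rw [sup_comm]; exact h.1, h.2.2, h.2.1⟩

/-- The half statement for one colour. -/
lemma half {W X : Type} [Finite W] [Finite X] {H : SimpleGraph W} {q : ℕ} {K0 : SimpleGraph X}
    (hdeg : ∀ R S, Good H K0 R S → ∃ y, Nat.card W ≤ (S.neighborSet y).ncard)
    {G : SimpleGraph (Fin q × X)} (hG0 : cp q K0 ≤ G)
    (hmax : ∀ G', G ≤ G' → InC H G' → G' = G) {r : Fin q × X} {i : Fin q}
    (hi : ∀ x, (i, x) ≠ r ∧ ¬ G.Adj r (i, x)) {R S : SimpleGraph (Fin q × X)}
    (hRS : Good H G R S) : ∃ x, S.Adj r x := by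
  classical
  by_contra hcon
  push Not at hcon
  set ι : X → Fin q × X := fun x => (i, x) with hι
  have hinj : Function.Injective ι := fun a b h => (Prod.mk.inj h).2
  have hgood : Good H K0 ((R.comap ι) ⊓ K0) ((S.comap ι) ⊓ K0) := by
    refine ⟨?_, free_mono inf_le_left (free_comap ι hinj hRS.2.1),
      free_mono inf_le_left (free_comap ι hinj hRS.2.2)⟩
    rw [← inf_sup_right]
    apply le_antisymm inf_le_right
    refine le_inf ?_ le_rfl
    intro a b hab
    have h1 : G.Adj (ι a) (ι b) := hG0 (⟨rfl, hab⟩ : (cp q K0).Adj (ι a) (ι b))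
    rw [← hRS.1] at h1
    exact h1
  obtain ⟨y, hy⟩ := hdeg _ _ hgood
  have hne : r ≠ ι y := (hi y).1.symm
  have hna : ¬ G.Adj r (ι y) := (hi y).2
  have hcard : Nat.card W ≤ (S.neighborSet (ι y)).ncard := by
    refine hy.trans ?_
    have h2 : ι '' (((S.comap ι) ⊓ K0).neighborSet y) ⊆ S.neighborSet (ι y) := by
      rintro _ ⟨x, hx, rfl⟩
      exact hx.1
    rw [← Set.ncard_image_of_injective _ hinj]
    exact Set.ncard_le_ncard h2 (Set.toFinite _)
  have hfree := free_sup_edge hRS.2.2 hcon hne hcard (Set.toFinite _)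
  have hC : InC H (G ⊔ edge r (ι y)) := by
    refine ⟨R, S ⊔ edge r (ι y), ?_, hRS.2.1, hfree⟩
    rw [← sup_assoc, hRS.1]
  have h3 := hmax _ le_sup_left hC
  apply hna
  rw [← h3]
  right
  rw [edge_adj]
  exact ⟨Or.inl ⟨rfl, rfl⟩, hne⟩

lemma ktt_le_equipartite (t : ℕ) :
    completeBipartiteGraph (Fin t) (Fin t) ⊑ completeEquipartiteGraph 2 t := by
  refine ⟨⟨⟨Sum.elim (fun i => ((0 : Fin 2), i)) (fun j => ((1 : Fin 2), j)), ?_⟩, ?_⟩⟩
  · rintro (a | a) (b | b) h
    · simp at h
    · change ((0 : Fin 2), a).1 ≠ ((1 : Fin 2), b).1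
      simp
    · change ((1 : Fin 2), a).1 ≠ ((0 : Fin 2), b).1
      simp
    · simp at h
  · rintro (a | a) (b | b) h
    · exact congrArg Sum.inl (Prod.mk.inj h).2
    · exact absurd (Prod.mk.inj h).1 (by decide)
    · exact absurd (Prod.mk.inj h).1 (by decide)
    · exact congrArg Sum.inr (Prod.mk.inj h).2

theorem mix (hub : HubStmt) (ktt : KttStmt) : MixStmt := by
  classical
  intro V _ B Z hB hc hZ
  obtain ⟨t, ht⟩ := ktt V B Z hB hc
  obtain ⟨m, N, ⟨R0, S0, h0⟩, hdeg⟩ := hub V B Z hB hc (Nat.card (V ⊕ Z))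
  set K0 := completeBipartiteGraph (Fin m) (Fin N) with hK0
  have hH : (pend B Z).Connected := pend_connected Z hB.2.1
  obtain ⟨⟨x0, _⟩, _⟩ := hdeg R0 S0 h0
  set w : ℕ := Fintype.card (Fin m ⊕ Fin N) with hw
  have hwpos : 0 < w := Fintype.card_pos_iff.2 ⟨x0⟩
  have hε : (0 : ℝ) < 1 / (2 * w) := by positivity
  obtain ⟨n0, hn0⟩ := Filter.eventually_atTop.1
    (eventually_completeEquipartiteGraph_isContained_of_minDegree hε 1 t)
  set q : ℕ := n0 + 2 with hq
  have hcardX : Fintype.card (Fin q × (Fin m ⊕ Fin N)) = q * w := by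
    rw [Fintype.card_prod, Fintype.card_fin]
  -- an edge-maximal graph
  have hcp : InC (pend B Z) (cp q K0) := by
    refine ⟨cp q R0, cp q S0, ?_, cp_free hH q h0.2.1, cp_free hH q h0.2.2⟩
    ext a b
    change (a.1 = b.1 ∧ R0.Adj a.2 b.2) ∨ (a.1 = b.1 ∧ S0.Adj a.2 b.2) ↔
      a.1 = b.1 ∧ K0.Adj a.2 b.2
    rw [← h0.1, SimpleGraph.sup_adj]
    tauto
  obtain ⟨G, hG⟩ := (Set.toFinite {G : SimpleGraph (Fin q × (Fin m ⊕ Fin N)) |
    cp q K0 ≤ G ∧ InC (pend B Z) G}).exists_maximal ⟨_, le_rfl, hcp⟩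
  have hmax : ∀ G', G ≤ G' → InC (pend B Z) G' → G' = G := fun G' h1 h2 =>
    le_antisymm (hG.le_of_ge ⟨hG.prop.1.trans h1, h2⟩ h1) h1
  -- a vertex of small degree
  have hsmall : ∃ r, (G.neighborSet r).ncard + 1 < q := by
    by_contra hcon
    push Not at hcon
    let e : Fin (q * w) ≃ Fin q × (Fin m ⊕ Fin N) :=
      (Fintype.equivFinOfCardEq hcardX).symm
    have h1 : (completeBipartiteGraph (Fin t) (Fin t)).Free (G.comap e) :=
      free_comap e e.injective (ht _ G hG.prop.2)
    apply h1
    refine (ktt_le_equipartite t).trans ?_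
    have hnw : n0 ≤ q * w := by
      have : q * 1 ≤ q * w := Nat.mul_le_mul_left q hwpos
      omega
    apply hn0 (q * w) hnw
    have hne : Nonempty (Fin (q * w)) := ⟨⟨0, by positivity⟩⟩
    obtain ⟨v, hv⟩ := (G.comap e).exists_minimal_degree_vertex
    rw [hv]
    have h2 := hcon (e v)
    have h3 : (G.comap e).degree v = (G.neighborSet (e v)).ncard := by
      rw [← card_neighborSet_eq_degree, ← Nat.card_eq_fintype_card, Nat.card_coe_set_eq]
      have : G.neighborSet (e v) = e '' ((G.comap e).neighborSet v) := by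
        ext x
        constructor
        · intro hx
          exact ⟨e.symm x, by simpa using hx, by simp⟩
        · rintro ⟨y, hy, rfl⟩
          exact hy
      rw [this, Set.ncard_image_of_injective _ e.injective]
    rw [h3]
    have h4 : (q : ℝ) ≤ (G.neighborSet (e v)).ncard + 1 := by exact_mod_cast h2
    have h5 : (2 : ℝ) ≤ q := by
      rw [hq]; push_cast; linarith [Nat.cast_nonneg (α := ℝ) n0]
    have h6 : (1 - 1 / ((1 : ℕ) : ℝ) + 1 / (2 * (w : ℝ))) * ((q * w : ℕ) : ℝ) = q / 2 := by
      push_cast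
      have : (w : ℝ) ≠ 0 := by positivity
      field_simp
      ring
    rw [ge_iff_le, h6]
    linarith
  obtain ⟨r, hr⟩ := hsmall
  -- a copy not meeting the closed neighbourhood of `r`
  obtain ⟨i, hi⟩ : ∃ i : Fin q, ∀ x, (i, x) ≠ r ∧ ¬ G.Adj r (i, x) := by
    by_contra hcon
    push Not at hcon
    have h1 : (Set.univ : Set (Fin q)) ⊆ Prod.fst '' (insert r (G.neighborSet r)) := by
      intro i _
      obtain ⟨x, hx⟩ := hcon i
      by_cases h : (i, x) = r
      · exact ⟨r, Set.mem_insert _ _, by rw [← h]⟩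
      · exact ⟨(i, x), Set.mem_insert_of_mem _ (hx h), rfl⟩
    have h2 := Set.ncard_le_ncard h1 (Set.toFinite _)
    have h3 := Set.ncard_image_le (f := Prod.fst) (Set.toFinite (insert r (G.neighborSet r)))
    have h4 := Set.ncard_insert_le r (G.neighborSet r)
    rw [Set.ncard_univ, Nat.card_eq_fintype_card, Fintype.card_fin] at h2
    omega
  refine ⟨_, inferInstance, G, r, hG.prop.2, fun R S hRS => ⟨?_, ?_⟩⟩
  · exact half (fun R S h => (hdeg S R (good_swap h)).1) hG.prop.1 hmax hi (good_swap hRS)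
  · exact half (fun R S h => (hdeg R S h).2) hG.prop.1 hmax hi hRS

end Pool.Agent.RS80.H39
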